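import Pool.Agent.Lib.MP_a7588a_co.Final

/-! Helpers for the case of at most two points below the second layer: symmetry, fans, counting. -/

set_option autoImplicit false

namespace Pool.Agent.CT70

open Real Pool.Agent.CT

theorem sol_symm {X Y : Finset Pt} {K : ℕ} {VP VQ : ℤ → Pt → ℝ} (h : Sol X Y K VP VQ) :
    Sol Y X K VQ VP := by
  obtain ⟨φ, v, L, s⟩ := h
  have inv := s.bij.invOn_invFunOn
  set ψ := Function.invFunOn φ (X : Set Pt) with hψ
  have e : ∀ x ∈ X, ψ (φ x) = x := fun x hx => inv.1 hx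
  have ev : ∀ i, ψ (φ (v i)) = v i := fun i => e _ (s.mem i)
  refine ⟨ψ, fun i => φ (v i), L.map fun t => (φ t.1, φ t.2.1, φ t.2.2), Set.BijOn.symm inv.symm s.bij,
    fun i => s.bij.mapsTo (s.mem i), fun i => by simp only [s.per], fun i hi => ?_, fun i hi => ?_,
    fun t ht => ?_, fun f hf => ?_, fun y hy => ?_, s.necQ, ?_⟩
  · exact s.stepQ i fun k => hi (by simp only [k])
  · simp only [ev]
    exact s.stepP i fun k => hi (by simp only [k])
  · obtain ⟨u, hu, rfl⟩ := List.mem_map.1 ht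
    obtain ⟨a, b, c, d, d'⟩ := s.pos u hu
    simp only [e _ a, e _ b, e _ c]
    exact ⟨s.bij.mapsTo a, s.bij.mapsTo b, s.bij.mapsTo c, d', d⟩
  · have := s.bdry (fun a b => f (φ a) (φ b)) fun a b => hf _ _
    rw [← this, List.map_map]; rfl
  · obtain ⟨x, hx, rfl⟩ := s.bij.surjOn hy
    rcases s.used x hx with ⟨i, rfl⟩ | ⟨t, ht, hm⟩
    · exact Or.inl ⟨i, rfl⟩
    · refine Or.inr ⟨_, List.mem_map_of_mem ht, ?_⟩
      rcases hm with rfl | rfl | rfl
      exacts [Or.inl rfl, Or.inr (Or.inl rfl), Or.inr (Or.inr rfl)]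
  · have : (fun i => ψ (φ (v i))) = v := funext ev
    rw [this]
    exact s.necP

theorem fan (w : ℤ → Pt) (o : Pt) (s : ℤ) (P : ℤ → Prop)
    (hP : ∀ j, ¬ P j → o = w j ∨ o = w (j + 1)) (n : ℕ) : ∃ L : List T3,
    (∀ t ∈ L, ∃ j, s ≤ j ∧ j < s + n ∧ P j ∧ t = (w j, w (j + 1), o)) ∧
    ∀ f, Anti f → (L.map (bd f)).sum =
      ∑ j ∈ Finset.range n, f (w (s + j)) (w (s + j + 1)) + f (w (s + n)) o - f (w s) o := by
  induction n with
  | zero => exact ⟨[], fun t ht => (List.not_mem_nil ht).elim, fun f _ => by simp⟩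
  | succ n ih =>
    obtain ⟨L, h1, h2⟩ := ih
    have c : s + ((n + 1 : ℕ) : ℤ) = s + n + 1 := by push_cast; ring
    by_cases hp : P (s + n)
    · refine ⟨(w (s + n), w (s + n + 1), o) :: L, fun t ht => ?_, fun f hf => ?_⟩
      · rcases List.mem_cons.1 ht with rfl | ht
        · exact ⟨s + n, by omega, by omega, hp, rfl⟩
        · obtain ⟨j, a, b, c, d⟩ := h1 t ht
          exact ⟨j, a, by omega, c, d⟩
      · rw [List.map_cons, List.sum_cons, h2 f hf, Finset.sum_range_succ, c]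
        simp only [bd]
        linarith [hf o (w (s + n))]
    · refine ⟨L, fun t ht => ?_, fun f hf => ?_⟩
      · obtain ⟨j, a, b, c, d⟩ := h1 t ht
        exact ⟨j, a, by omega, c, d⟩
      · rw [h2 f hf, Finset.sum_range_succ, c]
        rcases hP _ hp with k | k
        · rw [← k]; linarith [hf o (w (s + n + 1)), hf.self o]
        · rw [← k]; linarith [hf.self o]

/-- two fans and two triangles -/
theorem fans {w : ℤ → Pt} {K : ℕ} (per : ∀ i, w (i + K) = w i) (x : Pt) {p c e : ℤ} (h1 : c ≤ e)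
    (h2 : e ≤ c + K) : ∃ L : List T3,
    (∀ t ∈ L, (∃ j, c ≤ j ∧ j < e ∧ j + 1 ≠ p ∧ j ≠ p ∧ t = (w j, w (j + 1), w p)) ∨
      (∃ j, e ≤ j ∧ j < c + K ∧ t = (w j, w (j + 1), x)) ∨ t = (w c, w p, x) ∨ t = (w p, w e, x)) ∧
    BdL L w K ∧ (w p, w e, x) ∈ L := by
  obtain ⟨n, rfl⟩ := Int.le.dest h1
  obtain ⟨m, rfl⟩ : ∃ m, K = n + m := ⟨K - n, by omega⟩
  obtain ⟨L1, a1, a2⟩ := fan w (w p) c (fun j => j + 1 ≠ p ∧ j ≠ p) (fun j hj => by
    by_cases k : j = p
    · exact Or.inl (by rw [k])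
    · exact Or.inr (by rw [not_not.1 fun k' => hj ⟨k', k⟩])) n
  obtain ⟨L2, b1, b2⟩ := fan w x (c + n) (fun _ => True) (fun j hj => (hj trivial).elim) m
  refine ⟨(w c, w p, x) :: (w p, w (c + n), x) :: (L1 ++ L2), fun t ht => ?_, fun f hf => ?_, by simp⟩
  · simp only [List.mem_cons, List.mem_append] at ht
    rcases ht with k | k | k | k
    · exact Or.inr (Or.inr (Or.inl k))
    · exact Or.inr (Or.inr (Or.inr k))
    · obtain ⟨j, a, b, c, d⟩ := a1 t k
      exact Or.inl ⟨j, a, b, c.1, c.2, d⟩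
    · obtain ⟨j, a, b, -, d⟩ := b1 t k
      exact Or.inr (Or.inl ⟨j, a, by push_cast; omega, d⟩)
  · rw [← sum_period_shift f per c, Finset.sum_range_add, List.map_cons, List.map_cons,
      List.map_append, List.sum_cons, List.sum_cons, List.sum_append, a2 f hf, b2 f hf]
    have k : w (c + n + m) = w c := by
      rw [← per c]; congr 1; push_cast; ring
    have k2 : ∑ j ∈ Finset.range m, f (w (c + ((n + j : ℕ) : ℤ))) (w (c + ((n + j : ℕ) : ℤ) + 1)) =
        ∑ j ∈ Finset.range m, f (w (c + n + j)) (w (c + n + j + 1)) :=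
      Finset.sum_congr rfl fun j _ => by push_cast; simp only [add_assoc]
    rw [k, k2]
    simp only [bd]
    linarith [hf x (w c), hf x (w p), hf (w p) (w (c + n))]

section

variable {X : Finset Pt} {n K : ℕ} {h : ℤ → Pt} {D : ℤ → ℝ} {V : ℤ → Pt → ℝ}

theorem nec_of (e : HullEnum X n h D) {q : ℤ → Pt} {lam : ℤ → ℤ} (m : ∀ i j, i ≤ j → lam i ≤ lam j)
    (hq : ∀ i, q (lam i) = h i)
    (hs : ∀ i j, lam i ≤ j → j < lam (i + 1) → Sees (V j) (h i) (D i)) : Nec X V q := by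
  classical
  let ix : ℝ → ℤ := fun l => if k : ∃ i, D i = l then k.choose else 0
  have hx : ∀ i, ix (D i) = i := fun i => by
    have k : ∃ j, D j = D i := ⟨i, rfl⟩
    simp only [ix, dif_pos k]
    exact e.mono.injective k.choose_spec
  refine ⟨fun _ l => lam (ix l), fun _ l => lam (ix l + 1), ?_, ?_, ?_, ?_, ?_⟩
  · intro a b l hl
    obtain ⟨j, rfl, rfl⟩ := e.all a b l hl
    rw [hx, hq]
  · intro a b l hl
    obtain ⟨j, rfl, rfl⟩ := e.all a b l hl
    rw [hx, hq]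
    exact ((e.le j).unique hl).2
  · intro a b l _
    exact m _ _ (by omega)
  · intro a b l hl j j1 j2 _
    obtain ⟨i, rfl, rfl⟩ := e.all a b l hl
    rw [hx] at j1 j2
    exact hs i j j1 j2
  · intro a b l a' b' l' hl hl' k
    obtain ⟨i, rfl, rfl⟩ := e.all a b l hl
    obtain ⟨j, rfl, rfl⟩ := e.all a' b' l' hl'
    rw [hx, hx]
    exact m _ _ (by have := e.mono.lt_iff_lt.1 k; omega)

theorem cnt {μ : Pt → ℝ → ℤ} (e : HullEnum X n h D) (hμ : IsFeas X K V μ) :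
    (∀ i, μ (h i) (D i) < μ (h (i + 1)) (D (i + 1))) ∧
      ∀ i, μ (h (i + n)) (D (i + n)) = μ (h i) (D i) + K :=
  ⟨fun i => hμ.mono _ _ _ _ _ _ (e.le i) (e.le (i + 1)) (e.mono (by omega)),
    fun i => by rw [e.perh, e.perD, hμ.per _ _ _ (e.le i)]⟩

theorem lin_of {g : ℤ → ℤ} {n : ℕ} (g1 : ∀ i, g i < g (i + 1)) (g2 : ∀ i, g (i + n) = g i + n)
    (hn : 0 < n) (i : ℤ) : g i = i + g 0 := by
  refine conv_lin (fun i => ?_) i
  obtain ⟨m, rfl⟩ : ∃ m, n = m + 1 := ⟨n - 1, by omega⟩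
  have a := conv_add g1 (i + 1) m
  have b := g2 i
  have := g1 i
  push_cast at b
  rw [show i + ((m : ℤ) + 1) = i + 1 + m by ring] at b
  omega

theorem cnt_unav (e : HullEnum X n h D) (hF : Feas X K V) (hA : ∀ p, ¬ Avoid X K V p) : n = K := by
  obtain ⟨μ, hμ⟩ := hF
  obtain ⟨g1, g2⟩ := cnt e hμ
  have s : ∀ i, μ (h (i + 1)) (D (i + 1)) = μ (h i) (D i) + 1 := fun i => by
    have := hA (μ (h i) (D i) + 1)
    simp only [Avoid, not_exists, not_and, not_forall, not_not] at this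
    obtain ⟨a, b, l, hl, k⟩ := this μ hμ
    obtain ⟨j, rfl, rfl⟩ := e.all a b l hl
    have h1 : i < j := e.mono.lt_iff_lt.1 (hμ.lt_of (e.le i) (e.le j) (by omega))
    have h3 := hμ.mono_le (e.le (i + 1)) (e.le j) (e.mono.monotone (by omega))
    have := g1 i
    omega
  have a := conv_lin (g := fun i => μ (h i) (D i)) s (0 + n)
  have b := g2 0
  omega

theorem cnt_av (e : HullEnum X n h D) (hK : 0 < K) {p : ℤ} (hA : Avoid X K V p) : n < K := by
  obtain ⟨μ, hμ, hp⟩ := hA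
  obtain ⟨g1, g2⟩ := cnt e hμ
  have a := conv_add (g := fun i => μ (h i) (D i)) g1 0 n
  have b := g2 0
  rcases lt_or_eq_of_le (show n ≤ K by omega) with k | k
  · exact k
  · subst k
    have t := lin_of (g := fun i => μ (h i) (D i)) g1 g2 hK (p - μ (h 0) (D 0))
    exact (hp _ _ _ (e.le (p - μ (h 0) (D 0))) (by omega)).elim

theorem cnt_tight (e : HullEnum X K h D) (hK : 0 < K) (hF : Feas X K V) :
    ∃ h D, HullEnum X K h D ∧ ∀ i, Sees (V i) (h i) (D i) := by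
  obtain ⟨μ, hμ⟩ := hF
  obtain ⟨g1, g2⟩ := cnt e hμ
  refine ⟨_, _, conv_shift e (μ (h 0) (D 0)), fun i => ?_⟩
  have t := lin_of (g := fun i => μ (h i) (D i)) g1 g2 hK (i - μ (h 0) (D 0))
  have := hμ.sees _ _ _ (e.le (i - μ (h 0) (D 0)))
  rwa [t, sub_add_cancel] at this

theorem cnt_near (e : HullEnum X n h D) (hF : Feas X (n + 1) V) :
    ∃ h D, ∃ s : ℤ, HullEnum X n h D ∧ ∀ i, s ≤ i → i < s + n → Sees (V i) (h i) (D i) := by
  obtain ⟨μ, hμ⟩ := hF
  obtain ⟨g1, g2⟩ := cnt e hμ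
  have g3 : ∀ i j, i ≤ j → μ (h i) (D i) - i ≤ μ (h j) (D j) - j := fun i j k => by
    obtain ⟨m, rfl⟩ := Int.le.dest k
    have := conv_add (g := fun i => μ (h i) (D i)) g1 i m
    omega
  obtain ⟨s, s1, s2⟩ := Int.exists_least_of_bdd
    (P := fun z => μ (h 0) (D 0) + 1 ≤ μ (h z) (D z) - z)
    ⟨0, fun z hz => by by_contra k; have := g3 z 0 (by omega); omega⟩
    ⟨0 + n, by have := g2 0; push_cast at this; omega⟩
  refine ⟨_, _, s + (μ (h 0) (D 0) + 1), conv_shift e (μ (h 0) (D 0) + 1), fun i i1 i2 => ?_⟩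
  have := hμ.sees _ _ _ (e.le (i - (μ (h 0) (D 0) + 1)))
  have a := g3 s (i - (μ (h 0) (D 0) + 1)) (by omega)
  have b := g3 (i - (μ (h 0) (D 0) + 1)) (s - 1 + n) (by omega)
  have c := g2 (s - 1)
  have d : ¬ μ (h 0) (D 0) + 1 ≤ μ (h (s - 1)) (D (s - 1)) - (s - 1) := fun k => by
    have := s2 _ k; omega
  push_cast at c
  rwa [show μ (h (i - (μ (h 0) (D 0) + 1))) (D (i - (μ (h 0) (D 0) + 1))) = i by omega] at this

/-- an inner point beyond a chord lies in a triangle of the cap -/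
theorem tri (e : HullEnum X n h D) {x : Pt} (hx : x ∈ inner X) {i j : ℤ} (hij : i < j)
    (ho : ori (h i) (h j) x ≤ 0) : ∃ u, i < u ∧ u < j ∧ ∃ α β γ : ℝ, 0 < α ∧ 0 ≤ β ∧ 0 < γ ∧
      ∀ P Q, (α + β + γ) * ori P Q x =
        α * ori P Q (h i) + β * ori P Q (h u) + γ * ori P Q (h (u + 1)) := by
  obtain ⟨u, ⟨u1, u2, u3⟩, u4⟩ := Int.exists_greatest_of_bdd
    (P := fun z => i < z ∧ z ≤ j ∧ 0 < ori (h i) (h z) x) ⟨j, fun z hz => hz.2.1⟩
    ⟨i + 1, by omega, by omega, top_pos e hx i⟩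
  have uj : u < j := lt_of_le_of_ne u2 fun k => by rw [k] at u3; linarith
  have u5 : ori (h i) (h (u + 1)) x ≤ 0 := not_lt.1 fun k => by
    have := u4 (u + 1) ⟨by omega, by omega, k⟩; omega
  refine ⟨u, u1, uj, ori (h u) (h (u + 1)) x, - ori (h i) (h (u + 1)) x, ori (h i) (h u) x,
    top_pos e hx u, by linarith, u3, fun P Q => ?_⟩
  simp only [ori, cross, Prod.fst_sub, Prod.snd_sub]
  ring

theorem ori_self (a b : Pt) : ori a b a = 0 ∧ ori a b b = 0 ∧ ori a a b = 0 := by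
  simp only [ori, cross, Prod.fst_sub, Prod.snd_sub]
  exact ⟨by ring, by ring, by ring⟩

theorem chord (e : HullEnum X n h D) (g : GP X) {x : Pt} (hx : x ∈ inner X) {i j k l : ℤ}
    (h1 : i < j) (h2 : j ≤ k) (h3 : k < l) (h4 : l ≤ i + n) (ho : ori (h i) (h j) x ≤ 0) :
    0 < ori (h k) (h l) x := by
  obtain ⟨inj, -, srt⟩ := sorted_ok X n h D e
  have F : ∀ m, i ≤ m → m ≤ j → 0 ≤ ori (h k) (h l) (h m) := fun m m1 m2 => by
    by_cases a : m = k
    · rw [a, (ori_self _ _).1]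
    by_cases b : l = m + n
    · rw [b, e.perh, (ori_self _ _).2.1]
    rw [ori_cyc']
    exact (srt m k l (by omega) h3 (by omega)).le
  obtain ⟨u, u1, u2, α, β, γ, a, b, c, d⟩ := tri e hx h1 ho
  have hx' := (top_inner e).1 hx
  have ne : ori (h k) (h l) x ≠ 0 := g _ (e.le k).ha _ (e.le l).ha _ hx'.1 (fun q => by
    have := Int.le_of_dvd (show 0 < l - k by omega) (inj l k q.symm); omega) (hx'.2 k) (hx'.2 l)
  refine lt_of_le_of_ne (not_lt.1 fun q => ?_) ne.symm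
  have := d (h k) (h l)
  have := mul_nonneg a.le (F i le_rfl h1.le)
  have := mul_nonneg b (F u u1.le u2.le)
  have := mul_nonneg c.le (F (u + 1) (by omega) (by omega))
  have := mul_neg_of_pos_of_neg (show 0 < α + β + γ by linarith) q
  linarith

theorem exists_not (e : HullEnum X n h D) (hn : 0 < n) {y : Pt} (hy : y ∈ inner X) (y' : Pt) :
    ∃ i, ¬ 0 < ori y (h i) y' := by
  by_contra k
  have k : ∀ i, 0 < ori y' y (h i) := fun i => by
    rw [ori_cyc]; exact not_not.1 fun q => k ⟨i, q⟩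
  obtain ⟨u, -, -, α, β, γ, a, b, c, d⟩ := tri e hy (show (0 : ℤ) < 0 + n by omega)
    (by rw [e.perh, (ori_self _ _).2.2])
  have := d y' y
  rw [(ori_self _ _).2.1, mul_zero] at this
  have := mul_pos a (k 0)
  have := mul_nonneg b (k u).le
  have := mul_pos c (k (u + 1))
  linarith

end

theorem inner_le {X Y : Finset Pt} (g : GP X) (hY : Y ⊆ X) (h : (inner X).card ≤ 2) :
    (inner Y).card ≤ 2 := by
  have sub : inner Y ⊆ Y := fun x hx => (mem_inner.mp hx).1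
  by_cases k : 2 ≤ Y.card
  · refine le_trans (Finset.card_le_card fun p hp => ?_) h
    obtain ⟨p1, p2⟩ := mem_inner.1 hp
    refine mem_inner.2 ⟨hY p1, fun q => p2 ?_⟩
    refine (bridge_ok Y (g.mono hY) k p p1).1 fun r => ?_
    refine (bridge_ok X g (k.trans (Finset.card_le_card hY)) p (hY p1)).2 q ?_
    exact convexHull_mono (Set.sdiff_subset_sdiff_left (Finset.coe_subset.2 hY)) r
  · have := Finset.card_le_card sub
    omega

end Pool.Agent.CT70
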