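import Pool.Agent.Lib.CT70.A

/-! One inner point against two inner points, first set tight. -/

set_option autoImplicit false

namespace Pool.Agent.CT70

open Real Pool.Agent.CT

section

variable {X Y : Finset Pt} {n : ℕ} {w a : ℤ → Pt} {D E : ℤ → ℝ} {V U : ℤ → Pt → ℝ}

theorem sees_per {K : ℕ} (e : HullEnum Y n a E) (s : Sys Y K U) {i j : ℤ} (m : ℤ)
    (h : Sees (U j) (a i) (E i)) : Sees (U (j + K * m)) (a (i + n * m)) (E (i + n * m)) := by
  unfold Sees at h ⊢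
  rw [per_int e.perh, enum_perD e.perD, s.per_int j m (e.le i).ha]
  constructor <;> linarith [h.1, h.2]

theorem build (eX : HullEnum X (n + 1) w D) (eY : HullEnum Y n a E) (hn : 0 < n)
    (hc : X.card = Y.card) (sY : Sys Y (n + 1) U) (sw : ∀ i, Sees (V i) (w i) (D i))
    {x z r : Pt} (hx : ∀ y, y ∈ inner X ↔ y = x) (hy : ∀ y, y ∈ inner Y ↔ y = z ∨ y = r)
    {p c e : ℤ} (h1 : c ≤ p) (h2 : p < e) (h3 : e ≤ c + n)
    (P : ∀ i, p ≤ i → i ≤ p + n → Sees (U i) (a i) (E i))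
    (za : vlt (U (p - 1)) (a p) z) (zb : vlt (U p) z (a (p + 1)))
    (o1 : 0 < ori (a c) z r) (o2 : 0 < ori z (a e) r) (o3 : 0 < ori (w (c - 1)) (w p) x)
    (o4 : 0 < ori (w p) (w e) x) : Sol X Y (n + 1) V U := by
  classical
  obtain ⟨inj, -, srt⟩ := sorted_ok X _ w D eX
  have xi := (hx x).2 rfl
  have zi := (hy z).2 (Or.inl rfl)
  have ri := (hy r).2 (Or.inr rfl)
  have aY : ∀ i, a i ∈ Y := fun i => (eY.le i).ha
  have wX : ∀ i, w i ∈ X := fun i => (eX.le i).ha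
  obtain ⟨q, qper, qp, qa⟩ : ∃ q : ℤ → Pt, (∀ i, q (i + (n + 1 : ℕ)) = q i) ∧ q p = z ∧
      ∀ j, p < j → j ≤ p + n → q j = a j := by
    refine ⟨fun j => if (j - p) % (n + 1 : ℕ) = 0 then z else a (p + (j - p) % (n + 1 : ℕ)),
      fun i => ?_, by simp, fun j j1 j2 => ?_⟩
    · simp only [show i + (n + 1 : ℕ) - p = i - p + (n + 1 : ℕ) by ring, Int.add_emod_right]
    · have : (j - p) % (n + 1 : ℕ) = j - p := Int.emod_eq_of_lt (by omega) (by push_cast; omega)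
      simp only [this]
      rw [if_neg (by omega), add_sub_cancel]
  have qb : ∀ j, p - n ≤ j → j < p → q j = a (j + 1) := fun j j1 j2 => by
    rw [← qper, qa _ (by push_cast; omega) (by push_cast; omega), ← eY.perh (j + 1)]
    congr 1; push_cast; ring
  have red : ∀ j : ℤ, ∃ m t : ℤ, j = t + (n + 1 : ℕ) * m ∧ p ≤ t ∧ t ≤ p + n := fun j => by
    obtain ⟨m, t, k1, k2, k3⟩ := exists_divmod (K := (n + 1 : ℕ)) (by omega) (j - p)
    exact ⟨m, p + t, by linarith, by omega, by push_cast at k3; omega⟩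
  have qY : ∀ j, q j ∈ Y := fun j => by
    obtain ⟨m, t, rfl, t1, t2⟩ := red j
    rw [per_int qper]
    rcases eq_or_lt_of_le t1 with k | k
    · rw [← k, qp]; exact (mem_inner.1 zi).1
    · rw [qa t k t2]; exact aY t
  have lam : ∀ t m : ℤ, p < t → t ≤ p + n →
      t + n * m + (t + n * m - p - 1) / n = t + (n + 1 : ℕ) * m := fun t m t1 t2 => by
    rw [show t + n * m - p - 1 = t - p - 1 + n * m by ring, ediv_of m (by omega) (by omega)]
    push_cast; ring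
  have red' : ∀ j : ℤ, ∃ m t : ℤ, j = t + n * m ∧ p < t ∧ t ≤ p + n := fun j => by
    obtain ⟨m, t, k1, k2, k3⟩ := exists_divmod (K := n) (by omega) (j - p - 1)
    exact ⟨m, p + 1 + t, by linarith, by omega, by omega⟩
  have ql : ∀ i : ℤ, q (i + (i - p - 1) / n) = a i := fun i => by
    obtain ⟨m, t, rfl, t1, t2⟩ := red' i
    rw [lam t m t1 t2, per_int qper, per_int eY.perh, qa t t1 t2]
  obtain ⟨φ0, hφ0⟩ := tight_map inj qper
  have wx := ((top_inner eX).1 xi).2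
  obtain ⟨φ, φw, φx⟩ : ∃ φ : Pt → Pt, (∀ j, φ (w j) = q j) ∧ φ x = r :=
    ⟨fun y => if y = x then r else φ0 y, fun j => by simp only [if_neg (wx j), hφ0], by simp⟩
  have cov : ∀ y ∈ X, (∃ i, w i = y) ∨ y = x := fun y hy' => by
    by_cases k : ∃ i, w i = y
    · exact Or.inl k
    · exact Or.inr ((hx y).1 ((top_inner eX).2 ⟨hy', fun i q => k ⟨i, q⟩⟩))
  have mp : Set.MapsTo φ (X : Set Pt) (Y : Set Pt) := fun y hy' => by
    rcases cov y hy' with ⟨i, rfl⟩ | rfl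
    · rw [φw]; exact qY i
    · rw [φx]; exact (mem_inner.1 ri).1
  have sj : Set.SurjOn φ (X : Set Pt) (Y : Set Pt) := fun y hy' => by
    by_cases k : ∃ i, a i = y
    · obtain ⟨i, rfl⟩ := k
      exact ⟨w _, wX _, (φw _).trans (ql i)⟩
    · rcases (hy y).1 ((top_inner eY).2 ⟨hy', fun i q => k ⟨i, q⟩⟩) with rfl | rfl
      · exact ⟨w p, wX p, (φw p).trans qp⟩
      · exact ⟨x, (mem_inner.1 xi).1, φx⟩
  obtain ⟨L, L1, L2, L3⟩ := fans eX.perh x (p := p) (c := c - 1) (e := e) (by omega)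
    (by push_cast; omega)
  have xX := (mem_inner.1 xi).1
  refine ⟨φ, w, L, ⟨mp, Finset.injOn_of_surjOn_of_card_le φ mp sj hc.le, sj⟩, wX, eX.perh,
    fun i _ => vlt_of_sees (eX.le i).2 (sw i), fun i _ => ?_, fun t ht => ?_, L2, fun y hy' => ?_,
    nec_of eX (lam := fun i => i) (fun _ _ k => k) (fun _ => rfl) fun i j j1 j2 => ?_, ?_⟩
  · obtain ⟨m, t, rfl, t1, t2⟩ := red i
    rw [φw, φw, show t + (n + 1 : ℕ) * m + 1 = t + 1 + (n + 1 : ℕ) * m by ring, per_int qper,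
      per_int qper]
    refine sY.vlt_per t m (qY t) ?_
    rcases eq_or_lt_of_le t1 with k | k
    · rw [← k, qp, qa _ (by omega) (by omega)]; exact zb
    rcases eq_or_lt_of_le t2 with k' | k'
    · have := sY.vlt_per (p - 1) 1 (aY p) za
      rw [qa t k t2, k', eY.perh, show p + n + 1 = p + (n + 1 : ℕ) by push_cast; ring, qper, qp,
        show p + n = p - 1 + (n + 1 : ℕ) * 1 by push_cast; ring]
      exact this
    · rw [qa t k t2, qa _ (by omega) (by omega)]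
      exact vlt_of_sees (eY.le t).2 (P t t1 t2)
  · rcases L1 t ht with ⟨j, j1, j2, j3, j4, rfl⟩ | ⟨j, j1, j2, rfl⟩ | rfl | rfl
    · refine ⟨wX _, wX _, wX _, ?_, ?_⟩
      · rcases lt_or_gt_of_ne j4 with k | k
        · exact srt j (j + 1) p (by omega) (by omega) (by push_cast; omega)
        · rw [ori_cyc']; exact srt p j (j + 1) k (by omega) (by push_cast; omega)
      · simp only [φw, qp]
        rcases lt_or_gt_of_ne j4 with k | k
        · rw [qb j (by omega) k, qb (j + 1) (by omega) (by omega)]; exact top_pos eY zi _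
        · rw [qa j k (by omega), qa (j + 1) (by omega) (by omega)]; exact top_pos eY zi _
    · refine ⟨wX _, wX _, xX, top_pos eX xi j, ?_⟩
      push_cast at j2
      simp only [φw, φx]
      rw [qa j (by omega) (by omega), qa (j + 1) (by omega) (by omega)]; exact top_pos eY ri _
    · refine ⟨wX _, wX _, xX, o3, ?_⟩
      simp only [φw, φx, qp]
      rwa [qb _ (by omega) (by omega), sub_add_cancel]
    · refine ⟨wX _, wX _, xX, o4, ?_⟩
      simp only [φw, φx, qp]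
      rwa [qa _ h2 (by omega)]
  · rcases cov y hy' with k | rfl
    · exact Or.inl k
    · exact Or.inr ⟨_, L3, Or.inr (Or.inr rfl)⟩
  · obtain rfl : j = i := by omega
    exact sw j
  · have : (fun i => φ (w i)) = q := funext φw
    rw [this]
    refine nec_of eY (lam := fun i => i + (i - p - 1) / n) (fun i j k => ?_) ql fun i j j1 j2 => ?_
    · have := Int.ediv_le_ediv (show (0 : ℤ) < n by omega) (show i - p - 1 ≤ j - p - 1 by omega)
      omega
    · obtain ⟨m, t, rfl, t1, t2⟩ := red' i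
      rw [lam t m t1 t2] at j1
      rcases eq_or_lt_of_le t2 with k | k
      · rw [show t + n * m + 1 = p + 1 + n * (m + 1) by rw [k]; ring,
          lam (p + 1) (m + 1) (by omega) (by omega)] at j2
        rcases eq_or_lt_of_le j1 with k' | k'
        · rw [← k']; exact sees_per eY sY m (P t t1.le t2)
        · have := sees_per eY sY (m + 1) (P p le_rfl (by omega))
          rw [show j = p + (n + 1 : ℕ) * (m + 1) by
            have : ((n + 1 : ℕ) : ℤ) * (m + 1) = (n + 1 : ℕ) * m + (n + 1) := by push_cast; ring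
            omega, show t + n * m = p + n * (m + 1) by rw [k]; ring]
          exact this
      · rw [show t + n * m + 1 = t + 1 + n * m by ring, lam (t + 1) m (by omega) (by omega)] at j2
        rw [show j = t + (n + 1 : ℕ) * m by omega]
        exact sees_per eY sY m (P t t1.le t2)

theorem dirY (e : HullEnum Y n a E) {y : Pt} (hy : y ∈ inner Y) (i : ℤ) :
    ∃ m, Dir (a i) y m ∧ E i < m ∧ m ≤ E (i - 1) + π := by
  obtain ⟨m, h1, h2, h3⟩ := exists_dir_pos (top_pos e hy i) (e.le i).2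
  have k := (sorted_ok Y n a E e).2.1 (i - 1)
  have l := e.le (i - 1)
  rw [sub_add_cancel] at k l
  exact ⟨m, h1, h2, l.hi' (mem_inner.1 hy).1 h1 (by linarith)⟩

theorem sees_back (e : HullEnum Y n a E) (s : Sys Y (n + 1) U) (i : ℤ) :
    Sees (U (i + n)) (a (i + n)) (E (i + n)) ↔ Sees (U (i - 1)) (a i) (E i) := by
  unfold Sees
  rw [e.perh, e.perD, show i + n = i - 1 + (n + 1 : ℕ) by push_cast; ring, s.per _ _ (e.le i).ha]
  constructor <;> intro h <;> constructor <;> linarith [h.1, h.2]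

/-- the window of the view `i - 1` at `a i` -/
theorem window (e : HullEnum Y n a E) (s : Sys Y (n + 1) U) {i : ℤ} (p1 : Sees (U i) (a i) (E i))
    (p2 : Sees (U (i - 1 + n)) (a (i - 1 + n)) (E (i - 1 + n))) :
    U (i - 1) (a i) < E i ∧ E (i - 1) - π < U (i - 1) (a i) := by
  have l := e.le (i - 1)
  rw [sub_add_cancel] at l
  refine ⟨lt_of_le_of_lt (s.le (by omega) l.hb) p1.2, ?_⟩
  exact ((s.view _).born_iff l.ha l.hb l.2).1
    (lt_of_lt_of_le ((sees_back e s _).1 p2).1 (s.le (by omega) l.ha))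

theorem aft_iff (e : HullEnum Y n a E) {W : Pt → ℝ} {i : ℤ} {y : Pt} {m : ℝ} (hm : Dir (a i) y m)
    (m1 : E i < m) (m2 : m ≤ E (i - 1) + π) (w1 : W (a i) < E i) (w2 : E (i - 1) - π < W (a i)) :
    vlt W (a i) y ↔ m < W (a i) + π := by
  have := e.mono (show i - 1 < i by omega)
  refine ⟨fun ⟨l, h1, h2, h3⟩ => ?_, fun h => ⟨m, hm, by linarith, h⟩⟩
  rwa [hm.eq_of h1 (by linarith [pi_pos]) (by linarith)]

theorem interval (e : HullEnum Y n a E) (s : Sys Y (n + 1) U) (hn : 0 < n) {b : ℤ}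
    (hb : ∀ i, b ≤ i → i < b + n → Sees (U i) (a i) (E i)) :
    ∃ t0 t1 : ℤ, t0 ≤ t1 ∧ (∀ i, t0 ≤ i → i < t1 + n → Sees (U i) (a i) (E i)) ∧
      ¬ Sees (U (t0 - 1)) (a (t0 - 1)) (E (t0 - 1)) ∧
      ¬ Sees (U (t1 + n)) (a (t1 + n)) (E (t1 + n)) := by
  have far : ∀ i, Sees (U i) (a i) (E i) →
      ¬ Sees (U (i + n * (n + 1))) (a (i + n * (n + 1))) (E (i + n * (n + 1))) := fun i h k => by
    unfold Sees at h k
    rw [per_int e.perh, enum_perD e.perD,
      show i + n * (n + 1) = i + (n + 1 : ℕ) * n by push_cast; ring, s.per_int i n (e.le i).ha] at k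
    have := k.1
    push_cast at this
    linarith [h.2, pi_pos]
  have pos : (0 : ℤ) ≤ n * (n + 1) := by positivity
  have b0 := hb b le_rfl (by omega)
  obtain ⟨T, ⟨T1, T2⟩, T3⟩ := Int.exists_least_of_bdd
    (P := fun z => b ≤ z ∧ ¬ Sees (U z) (a z) (E z)) ⟨b, fun z hz => hz.1⟩
    ⟨b + n * (n + 1), by omega, far b b0⟩
  obtain ⟨B, ⟨B1, B2⟩, B3⟩ := Int.exists_greatest_of_bdd
    (P := fun z => z ≤ b ∧ ¬ Sees (U z) (a z) (E z)) ⟨b, fun z hz => hz.1⟩
    ⟨b - n * (n + 1), by omega, fun k => far _ k (by rwa [sub_add_cancel])⟩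
  have T4 : b + n ≤ T := not_lt.1 fun k => T2 (hb T T1 k)
  have B4 : B ≠ b := fun k => B2 (by rwa [k])
  refine ⟨B + 1, T - n, by omega, fun i i1 i2 => ?_, by rwa [add_sub_cancel_right],
    by rwa [sub_add_cancel]⟩
  by_contra k
  rcases le_total i b with l | l
  · have := B3 i ⟨l, k⟩; omega
  · have := T3 i ⟨l, k⟩; omega

theorem star_core (gX : GP X) (gY : GP Y) (eX : HullEnum X (n + 1) w D) (eY : HullEnum Y n a E)
    (hn : 0 < n) (hc : X.card = Y.card) (sY : Sys Y (n + 1) U) (sw : ∀ i, Sees (V i) (w i) (D i))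
    {x y1 y2 : Pt} (hx : ∀ y, y ∈ inner X ↔ y = x) (hy : ∀ y, y ∈ inner Y ↔ y = y1 ∨ y = y2)
    (ne : y1 ≠ y2) {t0 t1 p : ℤ} (P : ∀ i, t0 ≤ i → i < t1 + n → Sees (U i) (a i) (E i))
    (S : ∀ i, t0 ≤ i → i ≤ t1 → ∀ y ∈ inner Y, ∀ y' ∈ inner Y, ¬ vlt (U (i - 1)) (a i) y →
      vlt (U (i - 1)) (a i) y' → 0 < ori y (a i) y')
    (e2 : ¬ vlt (U (t1 - 1)) (a t1) y2) (p0 : t0 ≤ p) (p1 : p < t1)
    (A1 : vlt (U (p - 1)) (a p) y1) (A2 : vlt (U (p - 1)) (a p) y2)
    (last : ∀ i, p < i → i ≤ t1 → vlt (U (i - 1)) (a i) y1 → ¬ vlt (U (i - 1)) (a i) y2)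
    (R : 0 < ori y1 (a (p + 1)) y2) : Sol X Y (n + 1) V U := by
  have xi := (hx x).2 rfl
  have i1 := (hy y1).2 (Or.inl rfl)
  have i2 := (hy y2).2 (Or.inr rfl)
  obtain ⟨m1, n1⟩ := (top_inner eY).1 i1
  obtain ⟨m2, n2⟩ := (top_inner eY).1 i2
  have neg : ∀ i, ¬ 0 < ori y1 (a i) y2 → ori y1 (a i) y2 < 0 := fun i k =>
    lt_of_le_of_ne (not_lt.1 k) (gY _ m1 _ (eY.le i).ha _ m2 (n1 i).symm ne (n2 i))
  have bef : ∀ i, ∀ y ∈ inner Y, ¬ vlt (U (i + 1 - 1)) (a (i + 1)) y → vlt (U i) y (a (i + 1)) :=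
    fun i y k q => by
      rw [add_sub_cancel_right] at q
      obtain ⟨k1, k2⟩ := (top_inner eY).1 k
      exact ((sY.view i).total (eY.le (i + 1)).ha k1 (k2 _)).resolve_left q
  obtain ⟨f, ⟨f1, f2⟩, f3⟩ := Int.exists_least_of_bdd
    (P := fun z => p < z ∧ ¬ vlt (U (z - 1)) (a z) y2) ⟨p, fun z hz => hz.1.le⟩ ⟨t1, p1, e2⟩
  have f4 := f3 t1 ⟨p1, e2⟩
  obtain ⟨p', rfl⟩ : ∃ p', f = p' + 1 := ⟨f - 1, by ring⟩
  have A2' : ∀ i, p ≤ i → i ≤ p' → vlt (U (i - 1)) (a i) y2 := fun i k1 k2 => by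
    rcases eq_or_lt_of_le k1 with k | k
    · rwa [← k]
    · by_contra q
      have := f3 i ⟨k, q⟩
      omega
  obtain ⟨b, hb⟩ := exists_not eY hn i1 y2
  have hb' : ∀ m : ℤ, ¬ 0 < ori y1 (a (b + n * m)) y2 := fun m => by rwa [per_int eY.perh]
  have n1' : (1 : ℤ) ≤ n := by omega
  obtain ⟨c, ⟨c1, c2⟩, c3⟩ := Int.exists_greatest_of_bdd
    (P := fun z => z ≤ p ∧ ¬ 0 < ori y1 (a z) y2) ⟨p, fun z hz => hz.1⟩
    ⟨b + n * (-|b - p|), by nlinarith [le_abs_self (b - p), abs_nonneg (b - p)], hb' _⟩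
  obtain ⟨e, ⟨d1, d2⟩, d3⟩ := Int.exists_least_of_bdd
    (P := fun z => p' < z ∧ ¬ 0 < ori y1 (a z) y2) ⟨p', fun z hz => hz.1.le⟩
    ⟨b + n * |p' + 1 - b|, by nlinarith [le_abs_self (p' + 1 - b), abs_nonneg (p' + 1 - b)], hb' _⟩
  have RR : ∀ i, c < i → i < e → 0 < ori y1 (a i) y2 := fun i k1 k2 => by
    by_contra q
    by_cases l : i ≤ p
    · have := c3 i ⟨l, q⟩; omega
    by_cases l' : p' < i
    · have := d3 i ⟨l', q⟩; omega
    have := A2' i (by omega) (by omega)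
    exact q (S i (by omega) (by omega) _ i1 _ i2 (fun r => last i (by omega) (by omega) r this) this)
  have ec : e ≤ c + n := not_lt.1 fun k => c2 (by
    have := RR (c + n) (by omega) k
    rwa [eY.perh] at this)
  by_cases o : 0 < ori (w (c - 1)) (w p) x
  · refine build eX eY hn hc sY sw hx hy c1 (lt_add_one p) (by omega)
      (fun i k1 k2 => P i (by omega) (by omega)) A1 (bef p y1 i1 fun r => ?_) ?_ R o (top_pos eX xi p)
    · have := S (p + 1) (by omega) (by omega) _ i2 _ i1 (last _ (by omega) (by omega) r) r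
      rw [ori_swap''] at this
      linarith
    · rw [ori_swap']; linarith [neg c c2]
  · have cp : c ≠ p := fun k => o (by
      have := top_pos eX xi (p - 1)
      rw [sub_add_cancel] at this
      rwa [k])
    refine build eX eY hn hc sY sw hx (fun y => (hy y).trans or_comm) (le_refl p') d1 (by omega)
      (fun i k1 k2 => P i (by omega) (by omega)) (A2' p' (by omega) le_rfl) (bef p' y2 i2 f2) ?_ ?_ ?_
      (chord eX gX xi (show c - 1 < p by omega) (by omega) d1 (by push_cast; omega) (not_lt.1 o))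
    · rw [ori_cyc']; exact RR p' (by omega) d1
    · rw [ori_swap'']; linarith [neg e d2]
    · have := top_pos eX xi (p' - 1)
      rwa [sub_add_cancel] at this

theorem star (gX : GP X) (gY : GP Y) (eX : HullEnum X (n + 1) w D) (eY : HullEnum Y n a E)
    (hn : 0 < n) (hc : X.card = Y.card) (sY : Sys Y (n + 1) U) (fX : Feas X (n + 1) V)
    (fY : Feas Y (n + 1) U) (cX : (inner X).card = 1) (cY : (inner Y).card = 2) :
    Sol X Y (n + 1) V U := by
  classical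
  obtain ⟨w, D, eX, sw⟩ := cnt_tight eX (by omega) fX
  obtain ⟨a, E, b, eY, hb⟩ := cnt_near eY fY
  obtain ⟨x, hx⟩ := Finset.card_eq_one.1 cX
  obtain ⟨y1, y2, ne, hy⟩ := Finset.card_eq_two.1 cY
  have hx' : ∀ y, y ∈ inner X ↔ y = x := fun y => by rw [hx, Finset.mem_singleton]
  have hy' : ∀ y, y ∈ inner Y ↔ y = y1 ∨ y = y2 := fun y => by
    rw [hy, Finset.mem_insert, Finset.mem_singleton]
  obtain ⟨t0, t1, t01, P, N0, N1⟩ := interval eY sY hn hb
  have W : ∀ i, t0 ≤ i → i ≤ t1 → U (i - 1) (a i) < E i ∧ E (i - 1) - π < U (i - 1) (a i) :=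
    fun i k1 k2 => window eY sY (P i k1 (by omega)) (P _ (by omega) (by omega))
  have S : ∀ i, t0 ≤ i → i ≤ t1 → ∀ y ∈ inner Y, ∀ y' ∈ inner Y, ¬ vlt (U (i - 1)) (a i) y →
      vlt (U (i - 1)) (a i) y' → 0 < ori y (a i) y' := fun i k1 k2 y q y' q' r r' => by
    obtain ⟨m, d, d1, d2⟩ := dirY eY q i
    obtain ⟨m', d', d1', d2'⟩ := dirY eY q' i
    obtain ⟨w1, w2⟩ := W i k1 k2
    rw [aft_iff eY d d1 d2 w1 w2] at r
    rw [aft_iff eY d' d1' d2' w1 w2] at r'
    rw [ori_cyc]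
    have := eY.mono (show i - 1 < i by omega)
    exact ori_pos_of d' d (by linarith) (by linarith)
  have S0 : ∀ y ∈ inner Y, vlt (U (t0 - 1)) (a t0) y := fun y q => by
    obtain ⟨m, d, d1, d2⟩ := dirY eY q t0
    obtain ⟨w1, w2⟩ := W t0 le_rfl t01
    rw [aft_iff eY d d1 d2 w1 w2]
    have l := eY.le (t0 - 1)
    rw [sub_add_cancel] at l
    have v := sY.view (t0 - 1)
    have k : ¬ U (t0 - 1) (a t0) < E (t0 - 1) := fun k =>
      N0 ⟨(v.born_iff l.ha l.hb l.2).2 w2, (v.iff _ l.ha _ l.hb _ l.2).2 k⟩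
    have := lt_of_le_of_ne (not_lt.1 k) (v.ne _ l.ha _ l.hb _ l.2).2.symm
    linarith
  have S1 : ∀ y ∈ inner Y, ¬ vlt (U (t1 - 1)) (a t1) y := fun y q => by
    obtain ⟨m, d, d1, d2⟩ := dirY eY q t1
    obtain ⟨w1, w2⟩ := W t1 t01 le_rfl
    rw [aft_iff eY d d1 d2 w1 w2]
    intro k
    exact N1 ((sees_back eY sY t1).2 ⟨by linarith, w1⟩)
  have i1 := (hy' y1).2 (Or.inl rfl)
  have i2 := (hy' y2).2 (Or.inr rfl)
  obtain ⟨p, ⟨p0, p1, A1, A2⟩, pm⟩ := Int.exists_greatest_of_bdd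
    (P := fun z => t0 ≤ z ∧ z ≤ t1 ∧ vlt (U (z - 1)) (a z) y1 ∧ vlt (U (z - 1)) (a z) y2)
    ⟨t1, fun z hz => hz.2.1⟩ ⟨t0, le_rfl, t01, S0 _ i1, S0 _ i2⟩
  have p2 : p < t1 := lt_of_le_of_ne p1 fun k => S1 _ i1 (by rwa [k] at A1)
  have last : ∀ i, p < i → i ≤ t1 → vlt (U (i - 1)) (a i) y1 → ¬ vlt (U (i - 1)) (a i) y2 :=
    fun i k1 k2 r r' => by have := pm i ⟨by omega, k2, r, r'⟩; omega
  obtain ⟨m1, n1⟩ := (top_inner eY).1 i1
  obtain ⟨m2, n2⟩ := (top_inner eY).1 i2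
  rcases lt_or_gt_of_ne (gY _ m1 _ (eY.le (p + 1)).ha _ m2 (n1 _).symm ne (n2 _)) with k | k
  · exact star_core gX gY eX eY hn hc sY sw hx' (fun y => (hy' y).trans or_comm) ne.symm P S
      (S1 _ i1) p0 p2 A2 A1 (fun i k1 k2 r r' => last i k1 k2 r' r) (by rw [ori_swap'']; linarith)
  · exact star_core gX gY eX eY hn hc sY sw hx' hy' ne P S (S1 _ i2) p0 p2 A1 A2 last k

end

end Pool.Agent.CT70
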