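import Pool.Agent.Lib.CT70.B

/-! The double induction for at most two inner points on each side. -/

set_option autoImplicit false

namespace Pool.Agent.CT70

open Real Pool.Agent.CT

theorem tight {X Y : Finset Pt} {K : ℕ} {VP VQ : ℤ → Pt → ℝ} (h2 : 2 ≤ X.card)
    (hc : X.card = Y.card) (gX : GP X) (gY : GP Y) (cY : (inner Y).card ≤ 2) (sX : Sys X K VP)
    (sY : Sys Y K VQ) (fX : Feas X K VP) (fY : Feas Y K VQ) (hX : ∀ p, ¬ Avoid X K VP p)
    (hY : Avoid Y K VQ 0) : Sol X Y K VP VQ := by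
  have hC := conv_ok enum_ok sorted_ok
  have K2 := (hC X K VP gX h2 sX fX).1
  obtain ⟨n, w, D, eX, n1⟩ := enum_ok X gX h2
  obtain ⟨m, a, E, eY, m1⟩ := enum_ok Y gY (hc ▸ h2)
  obtain rfl := cnt_unav eX fX hX
  have lt := cnt_av eY (by omega) hY
  have c1 := inner_card X
  have c2 := inner_card Y
  by_cases k : (inner X).card = 0
  · have cp : CP X := fun b hb _ => by
      by_contra q
      have : b ∈ inner X := mem_inner.2 ⟨hb, q⟩
      rw [Finset.card_eq_zero.1 k] at this
      exact Finset.notMem_empty _ this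
    obtain rfl : n = X.card := by omega
    exact tight_ok sorted_ok hC (wall_ok init_ok) nec_ok X Y VP VQ h2 hc gX gY cp sX sY fX fY
  · obtain rfl : n = m + 1 := by omega
    exact star gX gY eX eY (by omega) hc sY fX fY (by omega) (by omega)

theorem tt3 (X Y : Finset Pt) (K : ℕ) (VP VQ : ℤ → Pt → ℝ) (hX : X.Nonempty)
    (hc : X.card = Y.card) : GP X → GP Y → (inner X).card ≤ 2 → (inner Y).card ≤ 2 →
    Sys X K VP → Sys Y K VQ → Feas X K VP → Feas Y K VQ → Sol X Y K VP VQ := by
  have hC := conv_ok enum_ok sorted_ok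
  have key : ∀ n : ℕ, ∀ (K : ℕ) (X Y : Finset Pt) (VP VQ : ℤ → Pt → ℝ), X.card = n + 1 →
      X.card = Y.card → GP X → GP Y → (inner X).card ≤ 2 → (inner Y).card ≤ 2 → Sys X K VP →
      Sys Y K VQ → Feas X K VP → Feas Y K VQ → Sol X Y K VP VQ := by
    intro n
    induction n with
    | zero =>
      intro K X Y VP VQ h1 h2 _ _ _ _ _ _ _ _
      obtain ⟨x, rfl⟩ := Finset.card_eq_one.1 h1
      obtain ⟨y, rfl⟩ := Finset.card_eq_one.1 (h2.symm.trans h1)
      exact ind_one x y K VP VQ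
    | succ n ihn =>
      intro K
      induction K with
      | zero =>
        intro X Y VP VQ h1 _ gX _ _ _ sX _ fX _
        have := (hC X 0 VP gX (by omega) sX fX).1
        omega
      | succ K ihK =>
        intro X Y VP VQ h1 h2 gX gY cX cY sX sY fX fY
        have a1 := (hC X _ VP gX (by omega) sX fX).1
        by_cases hav : ∃ p, Avoid X (K + 1) VP p ∧ Avoid Y (K + 1) VQ p
        · obtain ⟨p, p1, p2⟩ := hav
          obtain ⟨WP, WQ, s1, s2, f1, f2, h⟩ := drop_ok X Y K VP VQ p (by omega) sX sY p1 p2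
          exact h (ihK X Y WP WQ h1 h2 gX gY cX cY s1 s2 f1 f2)
        have hav' : ∀ p, ¬ Avoid X (K + 1) VP p ∨ ¬ Avoid Y (K + 1) VQ p := fun p =>
          not_and_or.1 fun h => hav ⟨p, h⟩
        by_cases ha : ∀ p, Avoid X (K + 1) VP p
        · exact sol_symm (tight (by omega) h2.symm gY gX cX sY sX fY fX
            (fun p => (hav' p).resolve_left (not_not.2 (ha p))) (ha 0))
        by_cases hb : ∀ p, Avoid Y (K + 1) VQ p
        · exact tight (by omega) h2 gX gY cY sX sY fX fY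
            (fun p => (hav' p).resolve_right (not_not.2 (hb p))) (hb 0)
        obtain ⟨a, ha⟩ := not_forall.1 ha
        obtain ⟨b, hb⟩ := not_forall.1 hb
        obtain ⟨s, s1, s2⟩ := ind_pos (Nat.succ_pos K) (shift_ok Y (K + 1) VQ 0).2.2.2.1 hav' ha hb
        obtain ⟨x1, x2, x3, -, x5⟩ := shift_ok X (K + 1) VP s
        obtain ⟨y1, y2, y3, -, -⟩ := shift_ok Y (K + 1) VQ s
        obtain ⟨w, hw, x, hx, K', WP, WQ, t1, t2, t3, t4, h⟩ := prom_all X Y (K + 1) _ _ gX gY a1 h2
          (x1 sX) (y1 sY) (x2 fX) (y2 fY) (Or.inl fun h => s1 (x3 _ h))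
          (Or.inr fun h => s2 (y3 _ h))
        have c1 : (del1 X w).card = n + 1 := by
          rw [del1, Finset.card_erase_of_mem hw, h1]; rfl
        have c2 : (del1 Y x).card = n + 1 := by
          rw [del1, Finset.card_erase_of_mem hx, ← h2, h1]; rfl
        have u1 : del1 X w ⊆ X := by rw [del1]; exact Finset.erase_subset _ _
        have u2 : del1 Y x ⊆ Y := by rw [del1]; exact Finset.erase_subset _ _
        exact x5 Y VQ (h (ihn K' _ _ WP WQ c1 (c1.trans c2.symm) (gX.mono u1) (gY.mono u2)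
          (inner_le gX u1 cX) (inner_le gY u2 cY) t1 t2 t3 t4))
  obtain ⟨n, hn⟩ := Nat.exists_eq_succ_of_ne_zero (Finset.card_pos.2 hX).ne'
  exact key n K X Y VP VQ hn hc

theorem inner_set {S : Finset Pt} (g : GP S) (h2 : 2 ≤ S.card) :
    {q | q ∈ (S : Set Pt) ∧ q ∈ convexHull ℝ ((S : Set Pt) \ {q})} = (inner S : Set Pt) := by
  ext q
  simp only [Set.mem_ofPred_eq, Finset.mem_coe, mem_inner]
  refine and_congr_right fun hq => ?_
  rw [← bridge_ok S g h2 q hq, not_not]

theorem inner_two {S : Finset Pt} (g : GP S)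
    (h : {q | q ∈ (S : Set Pt) ∧ q ∈ convexHull ℝ ((S : Set Pt) \ {q})}.ncard ≤ 2) :
    (inner S).card ≤ 2 := by
  by_cases k : 2 ≤ S.card
  · rwa [inner_set g k, Set.ncard_coe_finset] at h
  · have := Finset.card_le_card (show inner S ⊆ S from fun x hx => (mem_inner.mp hx).1)
    omega

end Pool.Agent.CT70
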